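import Pool.Agent.KDT.StmtsZ

set_option autoImplicit false

/-!
# KDT, block Z, row STF: a large finite stabiliser is infinite (helper39)
-/

namespace Pool.Agent.KDT.H39

open Pool.Agent.KDT.Z Polynomial H58Q Pool.Agent.SZT

theorem zr_of_spc {k U : Type} [Field k] [Field U] [Algebra k U] {q : Fin 4 → U} {t : Fin 4 → k}
    (h : Spc q t) {Φ : MvPolynomial (Fin 2) k} (hΦ : Zr Φ (q 0) (q 1)) : Zr Φ (t 0) (t 1) := by
  have h1 := h (MvPolynomial.rename ![0, 1] Φ) (by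
    rw [MvPolynomial.aeval_rename]
    have e : q ∘ ![0, 1] = ![q 0, q 1] := by
      funext i
      fin_cases i <;> rfl
    rw [e]
    exact hΦ)
  rw [MvPolynomial.eval_rename] at h1
  have e : t ∘ ![0, 1] = ![t 0, t 1] := by
    funext i
    fin_cases i <;> rfl
  rw [e] at h1
  exact h1

section good

variable {k U : Type} [Field k] [Field U] [Algebra k U] {f : k[X]} {g : U[X]} {J : Type}
  [AddCommGroup J] {th : Pt g → J} {cl : (Fin 4 → U) → J} {act : (U ≃ₐ[k] U) → J →+ J}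
  {Jk : AddSubgroup J}

theorem good_k (hJK : JK f g J th cl act Jk) {c : J} (hc : c ∈ Jk) {t : Fin 4 → U}
    (hg : Good g cl c t) : ∃ y : Fin 4 → k, On f y ∧ On g (emb U y) ∧ c = cl (emb U y) ∧
      rr (emb U y) t ≠ 0 ∧ ro (emb U y) t ≠ 0 := by
  obtain ⟨q', hq', hcq, h1, h2⟩ := hg
  rcases (hJK.mem_k c).1 hc with h0 | ⟨z, _, hz⟩ | ⟨y, hy, hgy, hcy⟩
  · exact absurd (hcq.symm.trans h0) (hJK.cl_ne q' hq')
  · exact absurd (hcq.symm.trans hz) (hJK.cl_th q' z hq')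
  · have e : q' = emb U y := hJK.cl_inj q' (emb U y) hq' hgy (hcq.symm.trans hcy)
    subst e
    exact ⟨y, hy, hgy, hcy, h1, h2⟩

end good

theorem count_aux {J k : Type} (Hs : Finset J) (Z : J → Fin 4 → k) (P : (Fin 4 → k) → Prop)
    (hinj : ∀ h ∈ Hs, ∀ h' ∈ Hs, Z h = Z h' → h = h') (hP : ∀ h ∈ Hs, P (Z h))
    (h4 : ∀ s p : k, {q : Fin 4 → k | P q ∧ q 0 = s ∧ q 1 = p}.Finite ∧
      {q : Fin 4 → k | P q ∧ q 0 = s ∧ q 1 = p}.ncard ≤ 4) :
    ∃ T : Finset (k × k), Hs.card ≤ 4 * T.card ∧ ∀ x ∈ T, ∃ h ∈ Hs, x = (Z h 0, Z h 1) := by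
  classical
  refine ⟨Hs.image (fun h => (Z h 0, Z h 1)), ?_, ?_⟩
  · apply Finset.card_le_mul_card_image
    intro a _
    obtain ⟨hfin, hcard⟩ := h4 a.1 a.2
    refine le_trans ?_ hcard
    rw [← Set.ncard_coe_finset]
    refine Set.ncard_le_ncard_of_injOn Z ?_ ?_ hfin
    · intro h hh
      rw [Finset.mem_coe, Finset.mem_filter] at hh
      exact ⟨hP _ hh.1, by rw [← hh.2], by rw [← hh.2]⟩
    · intro h hh h' hh' e
      rw [Finset.mem_coe, Finset.mem_filter] at hh hh'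
      exact hinj _ hh.1 _ hh'.1 e
  · intro x hx
    rw [Finset.mem_image] at hx
    obtain ⟨h, hh, rfl⟩ := hx
    exact ⟨h, hh, rfl⟩

theorem many_good {J : Type} {H : Set J} (hH : H.Finite) (δ : ℕ) (G1 G2 G3 G4 G5 : J → Prop)
    (h1 : {h | h ∈ H ∧ ¬ G1 h}.ncard ≤ δ) (h2 : {h | h ∈ H ∧ ¬ G2 h}.ncard ≤ δ)
    (h3 : {h | h ∈ H ∧ ¬ G3 h}.ncard ≤ δ) (h4 : {h | h ∈ H ∧ ¬ G4 h}.ncard ≤ δ)
    (h5 : {h | h ∈ H ∧ ¬ G5 h}.ncard ≤ δ) :
    ∃ S : Finset J, H.ncard ≤ S.card + 5 * δ ∧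
      ∀ h ∈ S, h ∈ H ∧ G1 h ∧ G2 h ∧ G3 h ∧ G4 h ∧ G5 h := by
  classical
  have hfin : {h | h ∈ H ∧ G1 h ∧ G2 h ∧ G3 h ∧ G4 h ∧ G5 h}.Finite :=
    hH.subset fun h hh => hh.1
  refine ⟨hfin.toFinset, ?_, fun h hh => by
    rw [Set.Finite.mem_toFinset] at hh
    exact hh⟩
  have hsub : H ⊆ {h | h ∈ H ∧ G1 h ∧ G2 h ∧ G3 h ∧ G4 h ∧ G5 h} ∪ ({h | h ∈ H ∧ ¬ G1 h} ∪
      ({h | h ∈ H ∧ ¬ G2 h} ∪ ({h | h ∈ H ∧ ¬ G3 h} ∪ ({h | h ∈ H ∧ ¬ G4 h} ∪
        {h | h ∈ H ∧ ¬ G5 h})))) := by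
    intro h hh
    by_cases g1 : G1 h
    · by_cases g2 : G2 h
      · by_cases g3 : G3 h
        · by_cases g4 : G4 h
          · by_cases g5 : G5 h
            · exact Or.inl ⟨hh, g1, g2, g3, g4, g5⟩
            · exact Or.inr (Or.inr (Or.inr (Or.inr (Or.inr ⟨hh, g5⟩))))
          · exact Or.inr (Or.inr (Or.inr (Or.inr (Or.inl ⟨hh, g4⟩))))
        · exact Or.inr (Or.inr (Or.inr (Or.inl ⟨hh, g3⟩)))
      · exact Or.inr (Or.inr (Or.inl ⟨hh, g2⟩))
    · exact Or.inr (Or.inl ⟨hh, g1⟩)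
  have hf : ∀ G : J → Prop, {h | h ∈ H ∧ ¬ G h}.Finite := fun G => hH.subset fun h hh => hh.1
  have h6 := Set.ncard_le_ncard hsub (hfin.union ((hf G1).union ((hf G2).union
    ((hf G3).union ((hf G4).union (hf G5))))))
  have u1 := Set.ncard_union_le {h | h ∈ H ∧ G1 h ∧ G2 h ∧ G3 h ∧ G4 h ∧ G5 h}
    ({h | h ∈ H ∧ ¬ G1 h} ∪ ({h | h ∈ H ∧ ¬ G2 h} ∪ ({h | h ∈ H ∧ ¬ G3 h} ∪
      ({h | h ∈ H ∧ ¬ G4 h} ∪ {h | h ∈ H ∧ ¬ G5 h}))))
  have u2 := Set.ncard_union_le {h | h ∈ H ∧ ¬ G1 h} ({h | h ∈ H ∧ ¬ G2 h} ∪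
    ({h | h ∈ H ∧ ¬ G3 h} ∪ ({h | h ∈ H ∧ ¬ G4 h} ∪ {h | h ∈ H ∧ ¬ G5 h})))
  have u3 := Set.ncard_union_le {h | h ∈ H ∧ ¬ G2 h} ({h | h ∈ H ∧ ¬ G3 h} ∪
    ({h | h ∈ H ∧ ¬ G4 h} ∪ {h | h ∈ H ∧ ¬ G5 h}))
  have u4 := Set.ncard_union_le {h | h ∈ H ∧ ¬ G3 h} ({h | h ∈ H ∧ ¬ G4 h} ∪
    {h | h ∈ H ∧ ¬ G5 h})
  have u5 := Set.ncard_union_le {h | h ∈ H ∧ ¬ G4 h} {h | h ∈ H ∧ ¬ G5 h}
  rw [← Set.ncard_eq_toFinset_card _ hfin]
  omega

theorem arith_stf {N m : ℕ} (h : 2000 + 32 * m ^ 4 ≤ N) :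
    5 * (6 * (Nat.sqrt (2 * N) + 3)) + 16 * m ^ 4 < N := by
  have h1 := Nat.sqrt_le (2 * N)
  set x := Nat.sqrt (2 * N) with hx
  have h2 : 120 * x ≤ x * x + 3600 := by
    have : (0 : ℤ) ≤ ((x : ℤ) - 60) ^ 2 := sq_nonneg _
    zify
    nlinarith
  omega

theorem zstf (gup : GupStatement) (inp : InpStatement) (trd : TrdStatement) (trs : TrsStatement)
    (hsp : HspStatement) (cnb : CnbStatement) (lff : LffStatement) (bez : BezStatement)
    (ext : ExtStatement) (emb' : EmbStatement) (cma : CmaStatement) (sbg : SbgStatement) :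
    StfStatement := by
  intro n
  obtain ⟨n', htrd⟩ := trd n
  refine ⟨2000 + 32 * (max n n') ^ 4, ?_⟩
  intro k U _ _ _ f g hE J _ th cl act Jk hJK q Φ hq hG hdisc hΦ hdeg hZ H hfin hH hN
  haveI : IsAlgClosed k := hE.kc
  haveI : IsAlgClosed U := hE.oc
  haveI : CharZero k := hE.ch
  haveI : CharZero U := charZero_of_injective_algebraMap (algebraMap k U).injective
  have hJG : JG g J th cl := hJK.toJG
  have hf4 : g.coeff 4 = algebraMap k U (f.coeff 4) := by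
    rw [hE.gm, Polynomial.coeff_map]
  have hgsf : Squarefree g := by
    rw [hE.gm]
    exact ((PerfectField.separable_iff_squarefree.2 hE.sf).map).squarefree
  set N := Nat.card H with hNdef
  have harith := arith_stf hN
  set δ : ℕ := 6 * (Nat.sqrt (2 * N) + 3) with hδ
  have hHfin : (H : Set J).Finite := Set.toFinite _
  have hHcard : (H : Set J).ncard = N := by
    rw [hNdef]
    exact (Nat.card_coe_set_eq (H : Set J)).symm
  have hsym := cma.1 U
  have hsymk := cma.1 k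
  -- the infinite set of specialisations
  set E : Set (Fin 4 → k) := {t | On f t ∧ Spc q t} with hEdef
  have hEinf : E.Infinite := by
    have hnd : ¬ Φ ∣ (MvPolynomial.X 0 ^ 2 - 4 * MvPolynomial.X 1 : MvPolynomial (Fin 2) k) := by
      rintro ⟨Ψ, hΨ⟩
      apply hdisc
      have h1 := congrArg (MvPolynomial.aeval ![q 0, q 1]) hΨ
      have hZ' : MvPolynomial.aeval ![q 0, q 1] Φ = 0 := hZ
      rw [map_mul, hZ', zero_mul] at h1
      simp only [map_sub, map_pow, map_mul, MvPolynomial.aeval_X, Matrix.cons_val_zero,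
        Matrix.cons_val_one, map_ofNat] at h1
      exact sub_eq_zero.1 h1
    have hinf := inp k Φ _ hΦ hnd
    intro hfinE
    apply hinf
    refine (hfinE.image (fun t : Fin 4 → k => (t 0, t 1))).subset ?_
    rintro ⟨s0, p0⟩ ⟨h1, h2⟩
    have h3 : s0 ^ 2 ≠ 4 * p0 := by
      intro h3
      apply h2
      unfold Zr
      simp only [map_sub, map_pow, map_mul, MvPolynomial.aeval_X, Matrix.cons_val_zero,
        Matrix.cons_val_one, map_ofNat]
      exact sub_eq_zero.2 h3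
    obtain ⟨t, ht, ht0, ht1, hs⟩ := (gup k U f g hE Φ hΦ).1 q hq hG hdisc hZ s0 p0 h1 h3
    exact ⟨t, ⟨ht, hs⟩, by simp only [ht0, ht1]⟩
  obtain ⟨x2, hx2⟩ := hEinf.nonempty
  have hembOn : ∀ t : Fin 4 → k, On f t → On g (emb U t) := fun t ht =>
    ((emb' k U f g hE.gm t t).2.2.2.1).2 ht
  have hclk : ∀ t : Fin 4 → k, On f t → cl (emb U t) ∈ Jk := fun t ht =>
    (hJK.mem_k _).2 (Or.inr (Or.inr ⟨t, ht, hembOn t ht, rfl⟩))
  have hembinj : ∀ t t' : Fin 4 → k, On f t → On f t' → cl (emb U t) = cl (emb U t') → t = t' :=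
    fun t t' ht ht' h => ((emb' k U f g hE.gm t t').2.2.2.2.1)
      (hJG.cl_inj _ _ (hembOn t ht) (hembOn t' ht') h)
  -- the main step
  have main : ∀ x1 ∈ E, ∃ h0 ∈ H, ∃ (σ : U ≃ₐ[k] U) (l : Fin 4 → U), On g l ∧ l 0 = q 0 ∧
      l 1 = q 1 ∧ act σ (cl l) = cl q + (cl (emb U x1) - cl (emb U x2) + h0) := by
    intro x1 hx1
    set c1 := cl (emb U x1) with hc1
    set c2 := cl (emb U x2) with hc2
    -- (1)
    obtain ⟨h0, hh0, hgood⟩ : ∃ h0 ∈ H, Good g cl (c1 - c2 + h0) q := by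
      by_contra hcon
      push Not at hcon
      have h1 := cnb U g J th cl hJG H hfin (c1 - c2) q hq
      have h2 : {h : J | h ∈ H ∧ ¬ Good g cl (c1 - c2 + h) q} = (H : Set J) := by
        ext h
        exact ⟨fun hh => hh.1, fun hh => ⟨hh, hcon h hh⟩⟩
      rw [h2, hHcard, ← hNdef, ← hδ] at h1
      omega
    have hγk : c1 - c2 + h0 ∈ Jk :=
      Jk.add_mem (Jk.sub_mem (hclk x1 hx1.1) (hclk x2 hx2.1)) (hH h0 hh0).1
    obtain ⟨y, hy, hgy, hγ, hr1, hr2⟩ := good_k hJK hγk hgood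
    have hrq : rr q (emb U y) ≠ 0 := by rw [(hsym q (emb U y)).1]; exact hr1
    have hroq : ro q (emb U y) ≠ 0 := by rw [(hsym q (emb U y)).2]; exact hr2
    obtain ⟨hG', Φ', hΦ', hdeg', hZ'⟩ := htrd k U f g hE J th cl act Jk hJK q Φ hq hG hΦ.ne_zero
      hdeg hZ y hy hrq hroq
    set q' := cmp (g.coeff 4) q (emb U y) with hq'
    obtain ⟨hOnq', hclq'⟩ := hJG.comp q (emb U y) hq hgy hrq hroq
    -- (2), (3)
    obtain ⟨S, hScard, hS⟩ := many_good hHfin δ (fun h => Good g cl (0 + h) q)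
      (fun h => Good g cl (0 + h) (emb U x2)) (fun h => Good g cl (c2 + h) (emb U y))
      (fun h => Good g cl (h0 + h) q) (fun h => Good g cl (h0 + h) (emb U x1))
      (cnb U g J th cl hJG H hfin 0 q hq)
      (cnb U g J th cl hJG H hfin 0 (emb U x2) (hembOn x2 hx2.1))
      (cnb U g J th cl hJG H hfin c2 (emb U y) hgy)
      (cnb U g J th cl hJG H hfin h0 q hq)
      (cnb U g J th cl hJG H hfin h0 (emb U x1) (hembOn x1 hx1.1))
    -- one step of HSP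
    have hstep : ∀ h : J, h ∈ H → ∀ x : Fin 4 → k, x ∈ E → Good g cl h q →
        Good g cl h (emb U x) → ∃ z : Fin 4 → k, On f z ∧ Spc q z ∧
          cl (emb U z) = cl (emb U x) + h := by
      intro h hh x hx g1 g2
      obtain ⟨t, ht, hgt, hht, ha, hb⟩ := good_k hJK (hH h hh).1 g1
      obtain ⟨t', ht', hgt', hht', ha', hb'⟩ := good_k hJK (hH h hh).1 g2
      have e : t' = t := hembinj t' t ht' ht (hht'.symm.trans hht)
      subst e
      have hrr := (emb' k U f g hE.gm t' x).1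
      have hro := (emb' k U f g hE.gm t' x).2.1
      have k1 : rr x t' ≠ 0 := by
        rw [(hsymk x t').1]
        intro h0
        apply ha'
        rw [hrr, h0, map_zero]
      have k2 : ro x t' ≠ 0 := by
        rw [(hsymk x t').2]
        intro h0
        apply hb'
        rw [hro, h0, map_zero]
      have k3 : rr q (emb U t') ≠ 0 := by rw [(hsym q (emb U t')).1]; exact ha
      have k4 : ro q (emb U t') ≠ 0 := by rw [(hsym q (emb U t')).2]; exact hb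
      have hst : cl (emb U t') ∈ Stb cl act q := by
        rw [← hht]
        exact (hH h hh).2
      obtain ⟨r1, r2, r3⟩ := hsp k U f g hE J th cl act Jk hJK q t' x hq ht hx.1 hst k3 k4 hx.2
        k1 k2
      exact ⟨cmp (f.coeff 4) x t', r1, r2, by rw [r3, ← hht]⟩
    have hcommon : ∀ h ∈ S, ∃ z : Fin 4 → k, On f z ∧ Zr Φ (z 0) (z 1) ∧ Zr Φ' (z 0) (z 1) ∧
        cl (emb U z) = c1 + (h0 + h) := by
      intro h hh
      obtain ⟨hhH, g1, g2, g3, g4, g5⟩ := hS h hh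
      have hhH' : h ∈ H := hhH
      simp only [zero_add] at g1 g2
      obtain ⟨xh, hxh, hsxh, hclxh⟩ := hstep h hhH' x2 hx2 g1 g2
      obtain ⟨w, hw, hsw, hclw⟩ := hstep (h0 + h) (H.add_mem hh0 hhH') x1 hx1 g4 g5
      -- composition with y
      have hck : c2 + h ∈ Jk := Jk.add_mem (hclk x2 hx2.1) (hH h hhH').1
      obtain ⟨x', hx', hgx', hclx', hra, hrb⟩ := good_k hJK hck g3
      have e : x' = xh := hembinj x' xh hx' hxh (by rw [← hclx', hclxh])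
      subst e
      have hrr := (emb' k U f g hE.gm x' y).1
      have hro := (emb' k U f g hE.gm x' y).2.1
      have k1 : rr x' y ≠ 0 := by
        intro h0
        apply hra
        rw [hrr, h0, map_zero]
      have k2 : ro x' y ≠ 0 := by
        intro h0
        apply hrb
        rw [hro, h0, map_zero]
      have hsz := trs k U (f.coeff 4) q y x' hsxh hrq hroq k1 k2
      rw [← hf4] at hsz
      have hcmp := (emb' k U f g hE.gm x' y).2.2.1 (f.coeff 4)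
      rw [← hf4] at hcmp
      obtain ⟨hOnz, hclz⟩ := hJG.comp (emb U x') (emb U y) hgx' hgy hra hrb
      rw [hcmp] at hOnz hclz
      have hOnz' : On f (cmp (f.coeff 4) x' y) :=
        ((emb' k U f g hE.gm (cmp (f.coeff 4) x' y) (cmp (f.coeff 4) x' y)).2.2.2.1).1 hOnz
      have hclz' : cl (emb U (cmp (f.coeff 4) x' y)) = c1 + (h0 + h) := by
        rw [← hclz, ← hclx', ← hγ]
        abel
      have ew : w = cmp (f.coeff 4) x' y := hembinj _ _ hw hOnz' (by rw [hclw, hclz'])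
      refine ⟨cmp (f.coeff 4) x' y, hOnz', ?_, zr_of_spc hsz hZ', hclz'⟩
      rw [← ew]
      exact zr_of_spc hsw hZ
    -- (4)
    have hdvd : Φ ∣ Φ' := by
      by_contra hnd
      choose! Z hZ1 hZ2 hZ3 hZ4 using hcommon
      obtain ⟨T, hT1, hT2⟩ := count_aux S Z (On f) (by
        intro h hh h' hh' e
        have h1 := hZ4 h hh
        rw [e, hZ4 h' hh'] at h1
        exact (add_left_cancel (add_left_cancel h1)).symm) hZ1 (lff k f hE.sf)
      have h1 := bez (max n n') k Φ Φ' (hdeg.trans (le_max_left _ _))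
        (hdeg'.trans (le_max_right _ _)) hΦ hnd T (by
          intro x hx
          obtain ⟨h, hh, rfl⟩ := hT2 x hx
          exact ⟨hZ2 h hh, hZ3 h hh⟩)
      rw [hHcard] at hScard
      omega
    obtain ⟨u, hu⟩ := hΦ.associated_of_dvd hΦ' hdvd
    have hZq' : Zr Φ (q' 0) (q' 1) := by
      have h1 : MvPolynomial.aeval ![q' 0, q' 1] Φ' = 0 := hZ'
      rw [← hu, map_mul] at h1
      rcases mul_eq_zero.1 h1 with h2 | h2
      · exact h2
      · exact absurd h2 ((u.isUnit.map (MvPolynomial.aeval ![q' 0, q' 1])).ne_zero)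
    obtain ⟨σ, hσ0, hσ1⟩ := ext k U f g hE Φ (q 0) (q 1) (q' 0) (q' 1) hΦ hZ hZq' hG hG'
    obtain ⟨hl1, hl2⟩ := hJK.act_cl σ.symm q' hOnq'
    refine ⟨h0, hh0, σ, fun i => σ.symm (q' i), hl1, ?_, ?_, ?_⟩
    · change σ.symm (q' 0) = q 0
      rw [← hσ0, AlgEquiv.symm_apply_apply]
    · change σ.symm (q' 1) = q 1
      rw [← hσ1, AlgEquiv.symm_apply_apply]
    · have h1 := (hJK.act_cl σ (fun i => σ.symm (q' i)) hl1).2
      have h2 : (fun i => σ ((fun i => σ.symm (q' i)) i)) = q' := by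
        funext i
        exact AlgEquiv.apply_symm_apply σ (q' i)
      rw [h2] at h1
      rw [h1, ← hclq', ← hγ]
  -- (5)
  choose! h0 hh0 σ l hl1 hl2 hl3 hl4 using main
  have hmaps : Set.MapsTo l E {l : Fin 4 → U | On g l ∧ l 0 = q 0 ∧ l 1 = q 1} :=
    fun x hx => ⟨hl1 x hx, hl2 x hx, hl3 x hx⟩
  obtain ⟨L, hL⟩ : ∃ L, {x | x ∈ E ∧ l x = L}.Infinite := by
    by_contra hcon
    rw [not_exists] at hcon
    apply hEinf
    refine ((lff U g hgsf (q 0) (q 1)).1.biUnion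
      (fun L _ => Set.not_infinite.1 (hcon L))).subset ?_
    intro x hx
    rw [Set.mem_iUnion₂]
    exact ⟨l x, hmaps hx, hx, rfl⟩
  obtain ⟨xs, hxs, hxsL⟩ := hL.nonempty
  have hOnL : On g L := by
    rw [← hxsL]
    exact hl1 xs hxs
  set γ : (Fin 4 → k) → J := fun x => cl (emb U x) - cl (emb U x2) + h0 x with hγ
  have hγk : ∀ x ∈ E, γ x ∈ Jk := fun x hx =>
    Jk.add_mem (Jk.sub_mem (hclk x hx.1) (hclk x2 hx2.1)) (hH (h0 x) (hh0 x hx)).1
  have hs : act (σ xs) (cl L) = cl q + γ xs := by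
    have h1 := hl4 xs hxs
    rw [hxsL] at h1
    exact h1
  have hback : act (σ xs).symm (cl q + γ xs) = cl L := by
    rw [← hs]
    obtain ⟨a1, a2⟩ := hJK.act_cl (σ xs) L hOnL
    rw [a2, (hJK.act_cl (σ xs).symm _ a1).2]
    congr 1
    funext i
    exact AlgEquiv.symm_apply_apply (σ xs) (L i)
  have hst : ∀ x ∈ E, l x = L → γ x - γ xs ∈ Jk ∧ γ x - γ xs ∈ Stb cl act q := by
    intro x hx hxL
    refine ⟨Jk.sub_mem (hγk x hx) (hγk xs hxs), σ x * (σ xs).symm, ?_⟩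
    have h1 : act (σ x) (cl L) = cl q + γ x := by
      have h2 := hl4 x hx
      rw [hxL] at h2
      exact h2
    have h3 : act (σ x * (σ xs).symm) (cl q + γ xs) = cl q + γ x := by
      rw [(sbg k U f g hE J th cl act Jk hJK).1, hback, h1]
    rw [map_add, hJK.act_k _ _ (hγk xs hxs)] at h3
    rw [← add_sub_assoc, ← h3]
    abel
  intro hW
  apply hL
  have hfinF : ((fun x => cl (emb U x)) '' {x | x ∈ E ∧ l x = L}).Finite := by
    refine ((hW.prod hHfin).image (fun w : J × J => w.1 + γ xs + cl (emb U x2) - w.2)).subset ?_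
    rintro _ ⟨x, ⟨hx, hxL⟩, rfl⟩
    refine ⟨(γ x - γ xs, h0 x), ⟨hst x hx hxL, hh0 x hx⟩, ?_⟩
    simp only [hγ]
    abel
  exact hfinF.of_finite_image (fun x hx x' hx' h => hembinj x x' hx.1.1 hx'.1.1 h)

end Pool.Agent.KDT.H39
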